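import Pool.Agent.ANO3.Stmt.Defs

/-!
# ANO5: the final statement in short definitions

`MP_5e77d9_an`.  Anosov diffeomorphisms of `M = S₁ × ⋯ × S_r × N × T^k`, where the `S_i` are closed
hyperbolic surfaces and `N` is a closed manifold of nonpositive curvature.
-/

set_option autoImplicit false

open scoped UpperHalfPlane MatrixGroups
open Set Filter Topology

namespace Pool.Agent.ANO5.Stmt

open Pool.Agent.ANO2.Stmt (act IsSurfaceGroup IsHomeoLift)
open Pool.Agent.ANO3.Stmt (IsIsotopic IsNormalForm)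

/-! ### Surfaces -/

/-- The stabilizer in `Γ` of the point of `v` in both trees: the fundamental group of the component
of the complement of `U` which contains `v`. -/
def stabilizer (Γ : Subgroup SL(2, ℝ)) (du ds : ℍ → ℍ → ℝ) (v : ℍ) : Set SL(2, ℝ) :=
  {γ | γ ∈ Γ ∧ du v (act γ v) = 0 ∧ ds v (act γ v) = 0}

/-- The map `H` acts unipotently on the first cohomology of the group `G`: `(H^* - 1)^n h = 0` on `G`
for all additive functions `h` on `G`, where `H^* h = h ∘ ψ`, `ψ δ = H δ H⁻¹`. -/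
def IsUnipotent (G : Set SL(2, ℝ)) (H : ℍ → ℍ) : Prop :=
  ∃ n : ℕ, ∀ ψ : SL(2, ℝ) → SL(2, ℝ), (∀ δ ∈ G, ψ δ ∈ G ∧ ∀ z, H (act δ z) = act (ψ δ) (H z)) →
    ∀ h : SL(2, ℝ) → ℝ, (∀ a ∈ G, ∀ b ∈ G, h (a * b) = h a + h b) →
      ∀ δ ∈ G, (fun (h : SL(2, ℝ) → ℝ) δ => h (ψ δ) - h δ)^[n] h δ = 0

/-- On the pieces of `Γ \ ℍ` which are not pseudo-Anosov, `f` acts unipotently on the first
cohomology: for `v ∉ U` some lift `H = γ f^m`, `m > 0`, of a power of `f` preserves the component of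
`v` and acts unipotently on the cohomology of its stabilizer.  (In Thurston's normal form a power of
`f` is a product of Dehn twists there.) -/
def IsUnipotentOff (Γ : Subgroup SL(2, ℝ)) (f : ℍ → ℍ) (U : Set ℍ) (du ds : ℍ → ℍ → ℝ) : Prop :=
  ∀ v ∉ U, ∃ m : ℕ, 0 < m ∧ ∃ γ ∈ Γ, du v (act γ (f^[m] v)) = 0 ∧ ds v (act γ (f^[m] v)) = 0 ∧
    IsUnipotent (stabilizer Γ du ds v) (fun z => act γ (f^[m] z))

/-- `f` is (a lift of) a continuous map of the closed surface `Γ \ ℍ` with a power `f^m`, `m > 0`,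
which is homotopic to a homeomorphism `g` in normal form.  (Dehn-Nielsen-Baer and Thurston: every
homotopy equivalence, in particular every homeomorphism.) -/
def HasNormalForm (Γ : Subgroup SL(2, ℝ)) (f : ℍ → ℍ) : Prop :=
  Continuous f ∧ ∃ m : ℕ, 0 < m ∧ ∃ (g : ℍ → ℍ) (U : Set ℍ) (du ds : ℍ → ℍ → ℝ),
    IsHomeoLift Γ g ∧ IsIsotopic Γ f^[m] g ∧ IsNormalForm Γ g U du ds ∧
      IsUnipotentOff Γ g U du ds

/-! ### The factor `N` -/

section Fibre

variable {W : Type} [MetricSpace W] {d : ℕ}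

/-- A map of `W` in the global coordinates `crd`. -/
def inCrd (crd : W ≃ₜ (Fin d → ℝ)) (g : W → W) (v : Fin d → ℝ) : Fin d → ℝ :=
  crd (g (crd.symm v))

/-- `G` is the deck group of a closed manifold with universal cover `W`: it acts by isometries which
are `C¹` in the coordinates, freely, properly discontinuously and cocompactly. -/
structure IsDeckGroup (crd : W ≃ₜ (Fin d → ℝ)) (G : Subgroup (Equiv.Perm W)) : Prop where
  isom : ∀ g ∈ G, ∀ x y : W, dist (g x) (g y) = dist x y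
  smooth : ∀ g ∈ G, ContDiff ℝ 1 (inCrd crd g)
  free : ∀ g ∈ G, ∀ x : W, g x = x → g = 1
  discrete : ∀ K : Set W, IsCompact K → {g : Equiv.Perm W | g ∈ G ∧ ∃ x ∈ K, g x ∈ K}.Finite
  cocompact : ∃ K : Set W, IsCompact K ∧ ∀ x : W, ∃ g ∈ G, g x ∈ K

/-- `nrm x v` is the norm of the tangent vector with the coordinates `v` at `x`, continuous and
invariant under the deck group. -/
structure IsInvNorm (crd : W ≃ₜ (Fin d → ℝ)) (G : Subgroup (Equiv.Perm W))
    (nrm : W → (Fin d → ℝ) → ℝ) : Prop where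
  cont : Continuous fun p : W × (Fin d → ℝ) => nrm p.1 p.2
  add : ∀ x v w, nrm x (v + w) ≤ nrm x v + nrm x w
  smul : ∀ x (c : ℝ) v, nrm x (c • v) = |c| * nrm x v
  pos : ∀ x v, v ≠ 0 → 0 < nrm x v
  inv : ∀ g ∈ G, ∀ x v, nrm (g x) (fderiv ℝ (inCrd crd g) (crd x) v) = nrm x v

/-- `geo t a b` is the point `t` on the geodesic from `a` (`t = 0`) to `b` (`t = 1`): it depends
`C¹` on `t`, `a`, `b`, is equivariant, and for `0 ≤ t ≤ 1` its distance from `b` is at most that of
`a` and `b`. -/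
structure IsGeodesic (crd : W ≃ₜ (Fin d → ℝ)) (G : Subgroup (Equiv.Perm W))
    (geo : ℝ → W → W → W) : Prop where
  smooth : ContDiff ℝ 1 fun q : ℝ × (Fin d → ℝ) × (Fin d → ℝ) =>
    crd (geo q.1 (crd.symm q.2.1) (crd.symm q.2.2))
  zero : ∀ a b, geo 0 a b = a
  one : ∀ a b, geo 1 a b = b
  dist_le : ∀ a b, ∀ t ∈ Icc (0 : ℝ) 1, dist (geo t a b) b ≤ dist a b
  inv : ∀ g ∈ G, ∀ t a b, geo t (g a) (g b) = g (geo t a b)

/-- `W / G` is a closed manifold with unique geodesics in its universal cover `W ≅ ℝ^d`, for example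
of nonpositive curvature (Cartan-Hadamard: `crd` is the inverse of the exponential map at a point),
with its distance, norm and geodesics. -/
structure IsHadamard (crd : W ≃ₜ (Fin d → ℝ)) (G : Subgroup (Equiv.Perm W))
    (nrm : W → (Fin d → ℝ) → ℝ) (geo : ℝ → W → W → W) : Prop where
  proper : ProperSpace W
  deck : IsDeckGroup crd G
  norm : IsInvNorm crd G nrm
  geodesic : IsGeodesic crd G geo

/-- The continuous map of `W / G` induced by `h` has finite order up to homotopy: some power `h^m`,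
`m > 0`, induces an inner automorphism of the fundamental group `G`.  (Mostow: every homeomorphism
of a closed locally symmetric space of nonpositive curvature without flat factors and surface
factors.) -/
structure IsPeriodic (G : Subgroup (Equiv.Perm W)) (h : W → W) : Prop where
  cont : Continuous h
  inner : ∃ m : ℕ, 0 < m ∧ ∃ δ ∈ G, ∀ g ∈ G, ∀ y, h^[m] (g y) = (δ * g * δ⁻¹) (h^[m] y)

end Fibre

/-! ### The manifold `M` -/

/-- The universal cover of `M = S₁ × ⋯ × S_r × N × T^k`. -/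
abbrev X (W : Type) (r k : ℕ) : Type := (Fin r → ℍ) × W × (Fin k → ℝ)

/-- The tangent space: `X` is an open subset in the coordinates. -/
abbrev E (d r k : ℕ) : Type := (Fin r → ℂ) × (Fin d → ℝ) × (Fin k → ℝ)

section Manifold

variable {W : Type} [TopologicalSpace W] {d r k : ℕ}

/-- The coordinates of a point of `X`. -/
noncomputable def toE (crd : W ≃ₜ (Fin d → ℝ)) (p : X W r k) : E d r k :=
  (fun i => (p.1 i : ℂ), crd p.2.1, p.2.2)

/-- The point with the given coordinates (arbitrary if there is none). -/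
noncomputable def ofE (crd : W ≃ₜ (Fin d → ℝ)) (x : E d r k) : X W r k :=
  (fun i => UpperHalfPlane.ofComplex (x.1 i), crd.symm x.2.1, x.2.2)

/-- `F` is of class `C¹`. -/
def IsC1 (crd : W ≃ₜ (Fin d → ℝ)) (F : X W r k → X W r k) : Prop :=
  ContDiffOn ℝ 1 (fun x => toE crd (F (ofE crd x))) {x | ∀ i, 0 < (x.1 i).im}

/-- The derivative of `F` at `p` in the coordinates. -/
noncomputable def dmap (crd : W ≃ₜ (Fin d → ℝ)) (F : X W r k → X W r k) (p : X W r k)
    (v : E d r k) : E d r k :=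
  fderiv ℝ (fun x => toE crd (F (ofE crd x))) (toE crd p) v

/-- The norm of the tangent vector `v` at `p`: the maximum of the hyperbolic norms of the components
in the surfaces, the norm of the component in `N` and that of the component in the torus. -/
noncomputable def tnorm (nrm : W → (Fin d → ℝ) → ℝ) (p : X W r k) (v : E d r k) : ℝ :=
  max ‖fun i => (((p.1 i).im : ℂ)⁻¹ * v.1 i)‖ (max (nrm p.2.1 v.2.1) ‖v.2.2‖)

/-- Deck transformations of `X → M`. -/
def IsDeck (Γ : Fin r → Subgroup SL(2, ℝ)) (G : Subgroup (Equiv.Perm W))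
    (g : X W r k → X W r k) : Prop :=
  ∃ (γ : Fin r → SL(2, ℝ)) (δ : Equiv.Perm W) (v : Fin k → ℤ), (∀ i, γ i ∈ Γ i) ∧ δ ∈ G ∧
    ∀ p, g p = (fun i => act (γ i) (p.1 i), δ p.2.1, fun j => p.2.2 j + v j)

/-- `τ` induces a continuous map `S₁ × ⋯ × S_r × N → T^k`. -/
structure IsTwist (Γ : Fin r → Subgroup SL(2, ℝ)) (G : Subgroup (Equiv.Perm W))
    (τ : (Fin r → ℍ) → W → (Fin k → ℝ)) : Prop where
  cont : Continuous fun p : (Fin r → ℍ) × W => τ p.1 p.2
  equivar : ∀ γ : Fin r → SL(2, ℝ), (∀ i, γ i ∈ Γ i) → ∀ δ ∈ G, ∃ v : Fin k → ℤ,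
    ∀ z y, τ (fun i => act (γ i) (z i)) (δ y) = fun j => τ z y j + v j

/-- The map `(z, y, t) ↦ (f₁ z₁, …, f_r z_r, h y, A t + τ z y)`. -/
noncomputable def model (f : Fin r → ℍ → ℍ) (h : W → W) (A : Matrix (Fin k) (Fin k) ℤ)
    (τ : (Fin r → ℍ) → W → (Fin k → ℝ)) (p : X W r k) : X W r k :=
  (fun i => f i (p.1 i), h p.2.1,
    fun j => (A.map (Int.cast : ℤ → ℝ)).mulVec p.2.2 j + τ p.1 p.2.1 j)

/-- The component of `F` in the `i`-th surface, on the `i`-th surface through `x`. -/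
def compS (F : X W r k → X W r k) (x : X W r k) (i : Fin r) (z : ℍ) : ℍ :=
  (F (Function.update x.1 i z, x.2)).1 i

/-- The component of `F` in `N`, on the copy of `N` through `x`. -/
def compN (F : X W r k → X W r k) (x : X W r k) (y : W) : W := (F (x.1, y, x.2.2)).2.1

/-- The maps of `M` induced by `F₀` and `F` are homotopic by a homotopy which lifts to one of `F₀`
and `F`: they induce the same endomorphism of the deck group. -/
def Homotopic (Γ : Fin r → Subgroup SL(2, ℝ)) (G : Subgroup (Equiv.Perm W))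
    (F₀ F : X W r k → X W r k) : Prop :=
  ∀ g, IsDeck Γ G g → ∃ g', IsDeck Γ G g' ∧ F₀ ∘ g = g' ∘ F₀ ∧ F ∘ g = g' ∘ F

/-- `F` is a lift to `X` of a `C¹` diffeomorphism of `M`, and `F'` is its inverse. -/
structure IsDiffeoLift (crd : W ≃ₜ (Fin d → ℝ)) (Γ : Fin r → Subgroup SL(2, ℝ))
    (G : Subgroup (Equiv.Perm W)) (F F' : X W r k → X W r k) : Prop where
  left_inv : ∀ p, F' (F p) = p
  right_inv : ∀ p, F (F' p) = p
  smooth : IsC1 crd F
  smooth_inv : IsC1 crd F'
  normalizes : ∀ g, IsDeck Γ G g → ∃ g', IsDeck Γ G g' ∧ F ∘ g = g' ∘ F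
  normalizes' : ∀ g', IsDeck Γ G g' → ∃ g, IsDeck Γ G g ∧ F ∘ g = g' ∘ F

/-- `P` is (the lift of) a continuous `DF`-invariant splitting `TM = E^u ⊕ E^s`, given by the
projections `P p` of the tangent space at `p` onto `E^u` with kernel `E^s`. -/
structure IsSplitting (crd : W ≃ₜ (Fin d → ℝ)) (Γ : Fin r → Subgroup SL(2, ℝ))
    (G : Subgroup (Equiv.Perm W)) (F : X W r k → X W r k)
    (P : X W r k → E d r k → E d r k) : Prop where
  cont : Continuous fun q : X W r k × E d r k => P q.1 q.2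
  linear : ∀ p, IsLinearMap ℝ (P p)
  proj : ∀ p v, P p (P p v) = P p v
  deck : ∀ g, IsDeck Γ G g → ∀ p v, P (g p) (dmap crd g p v) = dmap crd g p (P p v)
  inv : ∀ p v, P (F p) (dmap crd F p v) = dmap crd F p (P p v)

/-- `F` is a lift to `X` of a `C¹` Anosov diffeomorphism of `M`: there are a continuous invariant
splitting `E^u ⊕ E^s` and constants `C > 0`, `0 < μ < 1` such that `‖DFⁿ v‖ ≤ C μⁿ ‖v‖` for
`v ∈ E^s` and `‖DF⁻ⁿ v‖ ≤ C μⁿ ‖v‖` for `v ∈ E^u`, `n ≥ 0`. -/
def IsAnosovLift (crd : W ≃ₜ (Fin d → ℝ)) (Γ : Fin r → Subgroup SL(2, ℝ))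
    (G : Subgroup (Equiv.Perm W)) (nrm : W → (Fin d → ℝ) → ℝ) (F : X W r k → X W r k) : Prop :=
  ∃ (F' : X W r k → X W r k) (P : X W r k → E d r k → E d r k), IsDiffeoLift crd Γ G F F' ∧
    IsSplitting crd Γ G F P ∧ ∃ C μ : ℝ, 0 < C ∧ 0 < μ ∧ μ < 1 ∧
      ∀ (n : ℕ) (p : X W r k) (v : E d r k),
        (P p v = 0 → tnorm nrm (F^[n] p) (dmap crd F^[n] p v) ≤ C * μ ^ n * tnorm nrm p v) ∧
        (P p v = v → tnorm nrm (F'^[n] p) (dmap crd F'^[n] p v) ≤ C * μ ^ n * tnorm nrm p v)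

end Manifold

end Pool.Agent.ANO5.Stmt
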