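import Pool.Agent.ANO5.Stmt.Defs

/-!
# ANO5: manifolds which are finitely covered by a product

`M = X / Λ`, where `Λ` contains the deck group of `S₁ × ⋯ × S_r × N × T^k` as a subgroup of finite
index.
-/

set_option autoImplicit false

open scoped UpperHalfPlane MatrixGroups

namespace Pool.Agent.ANO5.Stmt

variable {W : Type} [TopologicalSpace W] {d r k : ℕ}

/-- `M = X / Λ` is a closed manifold (an orbifold if `Λ` does not act freely) with the finite cover
`S₁ × ⋯ × S_r × N × T^k`: the deck group of the latter is a subgroup of finite index of `Λ`. -/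
structure IsFinitelyCovered (crd : W ≃ₜ (Fin d → ℝ)) (Γ : Fin r → Subgroup SL(2, ℝ))
    (G : Subgroup (Equiv.Perm W)) (Λ : Subgroup (Equiv.Perm (X W r k))) : Prop where
  smooth : ∀ g ∈ Λ, IsC1 crd g
  deck : ∀ g : Equiv.Perm (X W r k), IsDeck Γ G g → g ∈ Λ
  finite : ∃ K : Set (Equiv.Perm (X W r k)), K.Finite ∧
    ∀ g ∈ Λ, ∃ s ∈ K, IsDeck Γ G (s * g : Equiv.Perm (X W r k))

/-- `F` is a lift to `X` of a `C¹` diffeomorphism of `M = X / Λ`, and `F'` is its inverse. -/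
structure IsLift (crd : W ≃ₜ (Fin d → ℝ)) (Λ : Subgroup (Equiv.Perm (X W r k)))
    (F F' : X W r k → X W r k) : Prop where
  left_inv : ∀ p, F' (F p) = p
  right_inv : ∀ p, F (F' p) = p
  smooth : IsC1 crd F
  smooth_inv : IsC1 crd F'
  normalizes : ∀ g ∈ Λ, ∃ g' ∈ Λ, F ∘ g = g' ∘ F
  normalizes' : ∀ g' ∈ Λ, ∃ g ∈ Λ, F ∘ g = g' ∘ F

/-- `P` is (the lift of) a continuous `DF`-invariant splitting `TM = E^u ⊕ E^s` for `M = X / Λ`,
given by the projections `P p` of the tangent space at `p` onto `E^u` with kernel `E^s`. -/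
structure IsInvSplitting (crd : W ≃ₜ (Fin d → ℝ)) (Λ : Subgroup (Equiv.Perm (X W r k)))
    (F : X W r k → X W r k) (P : X W r k → E d r k → E d r k) : Prop where
  cont : Continuous fun q : X W r k × E d r k => P q.1 q.2
  linear : ∀ p, IsLinearMap ℝ (P p)
  proj : ∀ p v, P p (P p v) = P p v
  deck : ∀ g ∈ Λ, ∀ p v, P (g p) (dmap crd g p v) = dmap crd g p (P p v)
  inv : ∀ p v, P (F p) (dmap crd F p v) = dmap crd F p (P p v)

/-- `F` is a lift to `X` of a `C¹` Anosov diffeomorphism of `M = X / Λ`. -/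
def IsAnosov (crd : W ≃ₜ (Fin d → ℝ)) (Λ : Subgroup (Equiv.Perm (X W r k)))
    (nrm : W → (Fin d → ℝ) → ℝ) (F : X W r k → X W r k) : Prop :=
  ∃ (F' : X W r k → X W r k) (P : X W r k → E d r k → E d r k), IsLift crd Λ F F' ∧
    IsInvSplitting crd Λ F P ∧ ∃ C μ : ℝ, 0 < C ∧ 0 < μ ∧ μ < 1 ∧
      ∀ (n : ℕ) (p : X W r k) (v : E d r k),
        (P p v = 0 → tnorm nrm (F^[n] p) (dmap crd F^[n] p v) ≤ C * μ ^ n * tnorm nrm p v) ∧
        (P p v = v → tnorm nrm (F'^[n] p) (dmap crd F'^[n] p v) ≤ C * μ ^ n * tnorm nrm p v)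

/-- `f` (a lift of a homeomorphism of `M`) induces a homeomorphism of the finite cover
`S₁ × ⋯ × S_r × N × T^k`. -/
structure IsCoverMap (Γ : Fin r → Subgroup SL(2, ℝ)) (G : Subgroup (Equiv.Perm W))
    (f : X W r k → X W r k) : Prop where
  normalizes : ∀ g, IsDeck Γ G g → ∃ g', IsDeck Γ G g' ∧ f ∘ g = g' ∘ f
  normalizes' : ∀ g', IsDeck Γ G g' → ∃ g, IsDeck Γ G g ∧ f ∘ g = g' ∘ f

end Pool.Agent.ANO5.Stmt
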