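import Pool.Agent.ANO5.A2.Idx.Ano

/-!
# ANO5: lifts of powers of Anosov diffeomorphisms are Anosov lifts
-/

set_option autoImplicit false

open scoped UpperHalfPlane MatrixGroups
open Set Filter Topology

namespace Pool.Agent.ANO5.A2

open Pool.Agent.ANO5.A1 Pool.Agent.ANO5.A1.Idx Pool.Agent.ANO5.A2.Idx

variable [Fib] {r : ℕ} {S : Fin r → ClosedSurface}

private theorem pow_succ_Lift (F : X r ≃ₜ X r) (n : ℕ) :
    ((F ^ (n + 1) : X r ≃ₜ X r) : X r → X r) = F ∘ (F ^ n : X r ≃ₜ X r) := by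
  rw [pow_succ']
  rfl

private theorem pow_coe_Lift (F : X r ≃ₜ X r) (n : ℕ) :
    ((F ^ n : X r ≃ₜ X r) : X r → X r) = F^[n] := by
  induction n with
  | zero => rfl
  | succ n ih => rw [pow_succ_Lift, ih, Function.iterate_succ']

private theorem norm_Lift {F : X r ≃ₜ X r}
    (hN : ∀ g, IsDeck S g → ∃ g', IsDeck S g' ∧ F ∘ g = g' ∘ F) (M : ℕ) :
    ∀ g, IsDeck S g → ∃ g', IsDeck S g' ∧
      (F ^ M : X r ≃ₜ X r) ∘ g = g' ∘ (F ^ M : X r ≃ₜ X r) := by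
  induction M with
  | zero => exact fun g hg => ⟨g, hg, rfl⟩
  | succ M ih =>
    intro g hg
    obtain ⟨g1, hg1, e1⟩ := ih g hg
    obtain ⟨g2, hg2, e2⟩ := hN g1 hg1
    refine ⟨g2, hg2, ?_⟩
    rw [pow_succ_Lift, Function.comp_assoc, e1, ← Function.comp_assoc, e2, Function.comp_assoc]

private theorem norm_Lift' {F : X r ≃ₜ X r}
    (hN : ∀ g', IsDeck S g' → ∃ g, IsDeck S g ∧ F ∘ g = g' ∘ F) (M : ℕ) :
    ∀ g', IsDeck S g' → ∃ g, IsDeck S g ∧
      (F ^ M : X r ≃ₜ X r) ∘ g = g' ∘ (F ^ M : X r ≃ₜ X r) := by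
  induction M with
  | zero => exact fun g hg => ⟨g, hg, rfl⟩
  | succ M ih =>
    intro g hg
    obtain ⟨g1, hg1, e1⟩ := hN g hg
    obtain ⟨g2, hg2, e2⟩ := ih g1 hg1
    refine ⟨g2, hg2, ?_⟩
    rw [pow_succ_Lift, Function.comp_assoc, e2, ← Function.comp_assoc, e1, Function.comp_assoc]

/-- A lift of a power of an Anosov diffeomorphism is a lift of an Anosov diffeomorphism. -/
theorem IsAnosovLift.deck_pow {F : X r ≃ₜ X r} (hF : IsAnosovLift S F) {M : ℕ} (hM : 0 < M)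
    {g : X r ≃ₜ X r} (hg : IsDeck S g) : IsAnosovLift S (g * F ^ M : X r ≃ₜ X r) := by
  obtain ⟨h1, h2, hN, hN', P, hPc, hPP, hPd, hPF, C, μ, hC, hμ0, hμ1, hest⟩ := hF
  obtain ⟨gi, hgi, hgi1, hgi2⟩ := deck_inv hg
  have egi : (g.symm : X r → X r) = gi := funext fun p => by
    apply g.injective
    rw [g.apply_symm_apply, hgi2]
  have hT : ((g * F ^ M : X r ≃ₜ X r) : X r → X r) = g ∘ (F ^ M : X r ≃ₜ X r) := rfl
  have hTs : ((g * F ^ M : X r ≃ₜ X r).symm : X r → X r) =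
      (F ^ M : X r ≃ₜ X r).symm ∘ gi := by
    rw [← egi]
    rfl
  refine ⟨?_, ?_, fun a ha => ?_, fun a ha => ?_, P, hPc, hPP, hPd, fun p => ?_, C, μ ^ M, hC,
    pow_pos hμ0 M, pow_lt_one₀ hμ0.le hμ1 hM.ne', fun n p v => ?_⟩
  · rw [hT]
    exact contDiffOn_comp (deck_contDiffOn hg) (A1.Idx.contDiffOn_pow h1 M)
  · rw [hTs]
    exact contDiffOn_comp (contDiffOn_pow_symm h2 M) (deck_contDiffOn hgi)
  · obtain ⟨a1, ha1, e1⟩ := norm_Lift hN M a ha
    refine ⟨g ∘ a1 ∘ gi, deck_comp hg (deck_comp ha1 hgi), funext fun x => ?_⟩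
    have h3 := congrFun e1 x
    simp only [Function.comp_apply] at h3
    show g ((F ^ M : X r ≃ₜ X r) (a x)) = g (a1 (gi (g ((F ^ M : X r ≃ₜ X r) x))))
    rw [h3, hgi1]
  · obtain ⟨a1, ha1, e1⟩ := norm_Lift' hN' M (gi ∘ a ∘ g) (deck_comp hgi (deck_comp ha hg))
    refine ⟨a1, ha1, funext fun x => ?_⟩
    have h3 := congrFun e1 x
    simp only [Function.comp_apply] at h3
    show g ((F ^ M : X r ≃ₜ X r) (a1 x)) = a (g ((F ^ M : X r ≃ₜ X r) x))
    rw [h3, hgi2]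
  · have h3 : tmap (g * F ^ M : X r ≃ₜ X r) p =
        tmap g ((F ^ M : X r ≃ₜ X r) p) ∘L tmap (F ^ M : X r ≃ₜ X r) p := by
      rw [hT]
      exact tmap_comp (deck_contDiffOn hg) (A1.Idx.contDiffOn_pow h1 M) p
    have h4 : (g * F ^ M : X r ≃ₜ X r) p = g ((F ^ M : X r ≃ₜ X r) p) := rfl
    rw [h3, h4, ← ContinuousLinearMap.comp_assoc, hPd g hg, ContinuousLinearMap.comp_assoc,
      pow_inv h1 hPF M p, ContinuousLinearMap.comp_assoc]
  · obtain ⟨g', hg', e⟩ := exists_deck_pow hN M hg n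
    obtain ⟨gj, hgj, hgj1, hgj2⟩ := deck_inv hg'
    have e1 : (((g * F ^ M : X r ≃ₜ X r) ^ n : X r ≃ₜ X r) : X r → X r) =
        g' ∘ (F ^ (M * n) : X r ≃ₜ X r) := by
      rw [pow_coe_Lift, hT, e]
    have e2 : (((g * F ^ M : X r ≃ₜ X r) ^ n : X r ≃ₜ X r).symm : X r → X r) =
        (F ^ (M * n) : X r ≃ₜ X r).symm ∘ gj := by
      funext x
      apply ((g * F ^ M : X r ≃ₜ X r) ^ n : X r ≃ₜ X r).injective
      rw [Homeomorph.apply_symm_apply, e1]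
      show x = g' ((F ^ (M * n) : X r ≃ₜ X r) ((F ^ (M * n) : X r ≃ₜ X r).symm (gj x)))
      rw [Homeomorph.apply_symm_apply, hgj2]
    have eμ : (μ ^ M) ^ n = μ ^ (M * n) := (pow_mul μ M n).symm
    rw [eμ]
    constructor
    · intro hv
      have h3 := (hest (M * n) p v).1 hv
      rw [e1, tmap_comp (deck_contDiffOn hg') (A1.Idx.contDiffOn_pow h1 (M * n)) p]
      show tnorm (g' ((F ^ (M * n) : X r ≃ₜ X r) p)) (tmap g' ((F ^ (M * n) : X r ≃ₜ X r) p)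
        (tmap (F ^ (M * n) : X r ≃ₜ X r) p v)) ≤ _
      rw [deck_tnorm hg']
      exact h3
    · intro hv
      rw [e2, tmap_comp (contDiffOn_pow_symm h2 (M * n)) (deck_contDiffOn hgj) p]
      show tnorm ((F ^ (M * n) : X r ≃ₜ X r).symm (gj p))
        (tmap (F ^ (M * n) : X r ≃ₜ X r).symm (gj p) (tmap gj p v)) ≤ _
      have h3 : P (gj p) (tmap gj p v) = tmap gj p v := by
        have h4 := DFunLike.congr_fun (hPd gj hgj p) v
        simp only [ContinuousLinearMap.comp_apply] at h4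
        rw [h4, hv]
      have h4 := (hest (M * n) (gj p) (tmap gj p v)).2 h3
      rw [deck_tnorm hgj] at h4
      exact h4

end Pool.Agent.ANO5.A2
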