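import Pool.Agent.ANO5.Stmt.Surf
import Pool.Agent.ANO5.Stmt.Lift

/-!
# ANO5: the theorem in the final form, from `MainStatement`
-/

set_option autoImplicit false

open scoped UpperHalfPlane MatrixGroups
open Set Filter Topology

namespace Pool.Agent.ANO5.Stmt

open Pool.Agent.ANO2 (SurfaceMap ClosedSurface)
open Pool.Agent.ANO2.Stmt (act IsSurfaceGroup IsHomeoLift)
open Pool.Agent.ANO3.Stmt (act_mul)

variable {W : Type} [MetricSpace W] {d : ℕ} {crd : W ≃ₜ (Fin d → ℝ)}
  {G : Subgroup (Equiv.Perm W)} {nrm : W → (Fin d → ℝ) → ℝ} {geo : ℝ → W → W → W}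

/-- The data of the factor `N`. -/
@[reducible] noncomputable def fib (h : IsHadamard crd G nrm geo) : Fib :=
  letI := h.proper
  { W := W
    V := Fin d → ℝ
    crd := crd
    Γ := G
    isom := h.deck.isom
    smooth := h.deck.smooth
    free := h.deck.free
    discrete := h.deck.discrete
    cocompact := h.deck.cocompact
    nrm := nrm
    nrm_cont := h.norm.cont
    nrm_add := h.norm.add
    nrm_smul := h.norm.smul
    nrm_pos := h.norm.pos
    nrm_inv := h.norm.inv
    geo := geo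
    geo_smooth := h.geodesic.smooth
    geo_zero := h.geodesic.zero
    geo_one := h.geodesic.one
    geo_dist := h.geodesic.dist_le
    geo_inv := h.geodesic.inv }

/-- The data of `N × T^k`. -/
@[reducible] noncomputable def tfib (h : IsHadamard crd G nrm geo) (k : ℕ) : TFib := ⟨fib h, k⟩

variable {r k : ℕ}

theorem isDeck_iff (h : IsHadamard crd G nrm geo) (S : Fin r → ClosedSurface)
    (g : X W r k → X W r k) : IsDeck (fun i => (S i).Γ) G g ↔
      @A2.IsDeck (@TFib.toFib (tfib h k)) r S g := by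
  letI : TFib := tfib h k
  constructor
  · rintro ⟨γ, δ, v, hγ, hδ, e⟩
    refine ⟨γ, Equiv.prodCongr δ (Equiv.addRight fun j => (v j : ℝ)), hγ,
      ⟨δ, hδ, v, fun p => rfl⟩, fun p => ?_⟩
    rw [e]
    rfl
  · rintro ⟨γ, δ', hγ, ⟨δ, hδ, v, e'⟩, e⟩
    refine ⟨γ, δ, v, hγ, hδ, fun p => ?_⟩
    rw [e, e']
    rfl

theorem toHomeo (h : IsHadamard crd G nrm geo) {S : Fin r → SurfaceMap}
    {F : X W r k → X W r k} (hF : IsAnosovLift crd (fun i => (S i).Γ) G nrm F) :
    ∃ F' : X W r k ≃ₜ X W r k, ⇑F' = F ∧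
      @A2.IsAnosovLift (@TFib.toFib (tfib h k)) r (A2.surf S) F' := by
  letI : TFib := tfib h k
  obtain ⟨Fi, P, hFi, hP, C, μ, hC, hμ0, hμ1, hexp⟩ := hF
  let F' : X W r k ≃ₜ X W r k :=
    { toFun := F
      invFun := Fi
      left_inv := hFi.left_inv
      right_inv := hFi.right_inv
      continuous_toFun := A1.Idx.continuous_of_loc (r := r) (G := F) hFi.smooth.continuousOn
      continuous_invFun := A1.Idx.continuous_of_loc (r := r) (G := Fi)
        hFi.smooth_inv.continuousOn }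
  let P' : X W r k → (E d r k →L[ℝ] E d r k) := fun p => (hP.linear p).mk'.toContinuousLinearMap
  have hdeck := isDeck_iff (k := k) h (A2.surf S)
  have hpow : ∀ n : ℕ, ((F' ^ n : X W r k ≃ₜ X W r k) : X W r k → X W r k) = F^[n] := by
    intro n
    induction n with
    | zero => rfl
    | succ n ih =>
      funext p
      rw [pow_succ', Function.iterate_succ_apply', ← ih]
      rfl
  have hpow' : ∀ n : ℕ, ((F' ^ n : X W r k ≃ₜ X W r k).symm : X W r k → X W r k) = Fi^[n] := by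
    intro n
    induction n with
    | zero => rfl
    | succ n ih =>
      funext p
      rw [Function.iterate_succ_apply, ← ih]
      apply (F' ^ (n + 1)).injective
      rw [Homeomorph.apply_symm_apply, pow_succ']
      show p = F ((F' ^ n) ((F' ^ n).symm (Fi p)))
      rw [Homeomorph.apply_symm_apply, hFi.right_inv]
  refine ⟨F', rfl, hFi.smooth, hFi.smooth_inv, fun g hg => ?_, fun g hg => ?_, P', ?_, ?_, ?_, ?_,
    C, μ, hC, hμ0, hμ1, ?_⟩
  · obtain ⟨g', hg', e⟩ := hFi.normalizes g ((hdeck g).2 hg)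
    exact ⟨g', (hdeck g').1 hg', e⟩
  · obtain ⟨g', hg', e⟩ := hFi.normalizes' g ((hdeck g).2 hg)
    exact ⟨g', (hdeck g').1 hg', e⟩
  · rw [continuous_clm_apply]
    intro v
    exact hP.cont.comp (Continuous.prodMk_left v)
  · intro p
    apply ContinuousLinearMap.ext
    intro v
    exact hP.proj p v
  · intro g hg p
    apply ContinuousLinearMap.ext
    intro v
    exact hP.deck g ((hdeck g).2 hg) p v
  · intro p
    apply ContinuousLinearMap.ext
    intro v
    exact hP.inv p v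
  · intro m p v
    have h1 := hexp m p v
    have e1 := hpow m
    have e2 := hpow' m
    constructor
    · intro hv
      rw [e1]
      exact h1.1 hv
    · intro hv
      rw [e2]
      exact h1.2 hv

theorem Homotopic.iter {Γ : Fin r → Subgroup SL(2, ℝ)} {F₀ F : X W r k → X W r k}
    (h : Homotopic Γ G F₀ F) (n : ℕ) : Homotopic Γ G F₀^[n] F^[n] := by
  induction n with
  | zero => exact fun g hg => ⟨g, hg, rfl, rfl⟩
  | succ n ih =>
    intro g hg
    obtain ⟨g1, hg1, h1, h1'⟩ := h g hg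
    obtain ⟨g2, hg2, h2, h2'⟩ := ih g1 hg1
    refine ⟨g2, hg2, ?_, ?_⟩
    · rw [Function.iterate_succ, Function.comp_assoc, h1, ← Function.comp_assoc, h2,
        Function.comp_assoc]
    · rw [Function.iterate_succ, Function.comp_assoc, h1', ← Function.comp_assoc, h2',
        Function.comp_assoc]

section Model

variable (f : Fin r → ℍ → ℍ) (h : W → W) (A : Matrix (Fin k) (Fin k) ℤ)
  (τ : (Fin r → ℍ) → W → (Fin k → ℝ))

omit [MetricSpace W] in
theorem model_fst (N : ℕ) (p : X W r k) (i : Fin r) :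
    ((model f h A τ)^[N] p).1 i = (f i)^[N] (p.1 i) := by
  induction N generalizing p with
  | zero => rfl
  | succ n ih => rw [Function.iterate_succ_apply, ih, Function.iterate_succ_apply]; rfl

omit [MetricSpace W] in
theorem model_mid (N : ℕ) (p : X W r k) :
    ((model f h A τ)^[N] p).2.1 = h^[N] p.2.1 := by
  induction N generalizing p with
  | zero => rfl
  | succ n ih => rw [Function.iterate_succ_apply, ih, Function.iterate_succ_apply]; rfl

omit [MetricSpace W] in
theorem model_snd (N : ℕ) (z : Fin r → ℍ) (y : W) (t t' : Fin k → ℝ) :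
    ((model f h A τ)^[N] (z, y, t)).2.2 - ((model f h A τ)^[N] (z, y, t')).2.2 =
      ((A ^ N).map (Int.cast : ℤ → ℝ)).mulVec (t - t') := by
  induction N generalizing z y t t' with
  | zero =>
    rw [pow_zero]
    have h1 : (1 : Matrix (Fin k) (Fin k) ℤ).map (Int.cast : ℤ → ℝ) = 1 :=
      map_one (Int.castRingHom ℝ).mapMatrix
    rw [h1, Matrix.one_mulVec]
    rfl
  | succ n ih =>
    rw [Function.iterate_succ_apply, Function.iterate_succ_apply]
    have h2 : (A ^ (n + 1)).map (Int.cast : ℤ → ℝ) =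
        (A ^ n).map (Int.cast : ℤ → ℝ) * A.map (Int.cast : ℤ → ℝ) := by
      have h3 := map_mul (Int.castRingHom ℝ).mapMatrix (A ^ n) A
      rw [pow_succ]
      exact h3
    have h4 := ih (fun i => f i (z i)) (h y)
      (fun j => (A.map (Int.cast : ℤ → ℝ)).mulVec t j + τ z y j)
      (fun j => (A.map (Int.cast : ℤ → ℝ)).mulVec t' j + τ z y j)
    rw [h2, ← Matrix.mulVec_mulVec, Matrix.mulVec_sub]
    have h5 : (fun j => (A.map (Int.cast : ℤ → ℝ)).mulVec t j + τ z y j) -
        (fun j => (A.map (Int.cast : ℤ → ℝ)).mulVec t' j + τ z y j) =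
        (A.map (Int.cast : ℤ → ℝ)).mulVec t - (A.map (Int.cast : ℤ → ℝ)).mulVec t' := by
      funext j
      simp only [Pi.sub_apply]
      ring
    rw [h5] at h4
    exact h4

theorem continuous_model {f : Fin r → ℍ → ℍ} (hf : ∀ i, Continuous (f i)) {h : W → W}
    (hh : Continuous h) (A : Matrix (Fin k) (Fin k) ℤ) {τ : (Fin r → ℍ) → W → (Fin k → ℝ)}
    (hτ : Continuous fun p : (Fin r → ℍ) × W => τ p.1 p.2) : Continuous (model f h A τ) := by
  unfold model
  refine Continuous.prodMk ?_ (Continuous.prodMk ?_ ?_)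
  · exact continuous_pi fun i => (hf i).comp ((continuous_apply i).comp continuous_fst)
  · exact hh.comp (continuous_fst.comp continuous_snd)
  · have h1 : Continuous fun p : X W r k => τ p.1 p.2.1 :=
      hτ.comp (continuous_fst.prodMk (continuous_fst.comp continuous_snd))
    have h2 : Continuous fun p : X W r k => (A.map (Int.cast : ℤ → ℝ)).mulVec p.2.2 :=
      continuous_const.matrix_mulVec (continuous_snd.comp continuous_snd)
    exact h2.add h1

end Model

/-- powers of a periodic map -/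
theorem inner_pow {h : W → W} {m : ℕ} {δ : Equiv.Perm W} (hδ : δ ∈ G)
    (hin : ∀ g ∈ G, ∀ y, h^[m] (g y) = (δ * g * δ⁻¹) (h^[m] y)) (c : ℕ) :
    ∀ g ∈ G, ∀ y, h^[m * c] (g y) = (δ ^ c * g * (δ ^ c)⁻¹) (h^[m * c] y) := by
  induction c with
  | zero =>
    intro g _ y
    simp
  | succ c ih =>
    intro g hg y
    have hg' : δ * g * δ⁻¹ ∈ G := mul_mem (mul_mem hδ hg) (inv_mem hδ)
    rw [Nat.mul_succ, Function.iterate_add_apply, Function.iterate_add_apply, hin g hg,
      ih _ hg']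
    congr 1
    group

/-- The theorem in the final form. -/
theorem main (hmain : MainStatement) (hN : IsHadamard crd G nrm geo) (r k : ℕ)
    (hrd : 0 < r ∨ 0 < d) (Γ : Fin r → Subgroup SL(2, ℝ)) (hΓ : ∀ i, IsSurfaceGroup (Γ i))
    (f : Fin r → ℍ → ℍ) (hf : ∀ i, HasNormalForm (Γ i) (f i)) (h : W → W)
    (hh : IsPeriodic G h) (A : Matrix (Fin k) (Fin k) ℤ)
    (τ : (Fin r → ℍ) → W → (Fin k → ℝ)) (hτ : IsTwist Γ G τ) (F : X W r k → X W r k)
    (hF : IsAnosovLift crd Γ G nrm F) (n : ℕ) (hn : 0 < n) :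
    ¬ Homotopic Γ G (model f h A τ) F^[n] := by
  classical
  intro hhom
  letI : TFib := tfib hN k
  have hfc : ∀ i, Continuous (f i) := fun i => (hf i).1
  choose m hm hS using fun i => exists_surface (hΓ i) (hf i)
  obtain ⟨mh, hmh, δ₀, hδ₀, hin⟩ := hh.inner
  obtain ⟨N, hNe⟩ : ∃ N, N = mh * ∏ i, m i := ⟨_, rfl⟩
  have hprod : 0 < ∏ i, m i := Finset.prod_pos fun i _ => hm i
  have hNpos : 0 < N := by
    rw [hNe]
    exact Nat.mul_pos hmh hprod
  have hsurf : ∀ i, ∃ S : SurfaceMap, S.Γ = Γ i ∧ Nonempty (Normal S) ∧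
      ∀ γ ∈ Γ i, ∀ γ' ∈ Γ i, (∀ z, (f i)^[N] (act γ z) = act γ' ((f i)^[N] z)) →
        ∀ z, S.f (act γ z) = act γ' (S.f z) := by
    intro i
    have h1 : N = m i * (mh * ∏ j ∈ Finset.univ.erase i, m j) := by
      rw [hNe, ← Finset.mul_prod_erase Finset.univ m (Finset.mem_univ i)]
      ring
    rw [h1]
    exact hS i _ (Nat.mul_pos hmh (Finset.prod_pos fun j _ => hm j))
  choose S hSΓ hSt hSc using hsurf
  obtain rfl : Γ = fun i => (S i).Γ := funext fun i => (hSΓ i).symm
  obtain ⟨F', hF'c, hF'⟩ := toHomeo hN hF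
  have hdeck := isDeck_iff (k := k) hN (A2.surf S)
  have hhN : Homotopic (fun i => (S i).Γ) G (model f h A τ)^[N] (F^[n])^[N] := hhom.iter N
  -- the automorphism of `G`
  obtain ⟨δ, hδ, hinN⟩ : ∃ δ ∈ G, ∀ g ∈ G, ∀ y, h^[N] (g y) = (δ * g * δ⁻¹) (h^[N] y) := by
    refine ⟨δ₀ ^ (∏ i, m i), pow_mem hδ₀ _, ?_⟩
    rw [hNe]
    exact inner_pow hδ₀ hin _
  -- the new twist
  obtain ⟨τN, hτN⟩ : ∃ τN : (Fin r → ℍ) × W → (Fin k → ℝ),
      ∀ q, τN q = ((model f h A τ)^[N] (q.1, q.2, 0)).2.2 := ⟨_, fun q => rfl⟩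
  have hmodel : ∀ p : X W r k, ((model f h A τ)^[N] p).2.2 =
      ((A ^ N).map (Int.cast : ℤ → ℝ)).mulVec p.2.2 + τN (p.1, p.2.1) := by
    intro p
    have h1 := model_snd f h A τ N p.1 p.2.1 p.2.2 0
    rw [sub_zero] at h1
    rw [← h1, hτN]
    show _ = _ - _ + _
    rw [sub_add_cancel]
  have hτNc : Continuous τN := by
    have h1 : Continuous fun q : (Fin r → ℍ) × W =>
        ((model f h A τ)^[N] (q.1, q.2, (0 : Fin k → ℝ))).2.2 :=
      (continuous_snd.comp continuous_snd).comp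
        (((continuous_model hfc hh.cont A hτ.cont).iterate N).comp
          (continuous_fst.prodMk (continuous_snd.prodMk continuous_const)))
    exact h1.congr fun q => (hτN q).symm
  have hrel : ∀ (γ : Fin r → SL(2, ℝ)) (δ' : Equiv.Perm W) (v : Fin k → ℤ),
      (∀ i, γ i ∈ (S i).Γ) → δ' ∈ G →
      ∃ (γ' : Fin r → SL(2, ℝ)) (v' : Fin k → ℤ), (∀ i, γ' i ∈ (S i).Γ) ∧
        (∀ i z, (f i)^[N] (act (γ i) z) = act (γ' i) ((f i)^[N] z)) ∧
        (∀ (z : Fin r → ℍ) (y : W) (t : Fin k → ℝ),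
          ((A ^ N).map (Int.cast : ℤ → ℝ)).mulVec (fun j => t j + (v j : ℝ)) +
            τN (fun i => act (γ i) (z i), δ' y) =
          (fun j => (((A ^ N).map (Int.cast : ℤ → ℝ)).mulVec t + τN (z, y)) j + (v' j : ℝ))) ∧
        ∀ p : X W r k, (F^[n])^[N] (fun i => act (γ i) (p.1 i), δ' p.2.1,
            fun j => p.2.2 j + (v j : ℝ)) =
          (fun i => act (γ' i) (((F^[n])^[N] p).1 i), (δ * δ' * δ⁻¹) ((F^[n])^[N] p).2.1,
            fun j => ((F^[n])^[N] p).2.2 j + (v' j : ℝ)) := by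
    intro γ δ' v hγ hδ'
    obtain ⟨g', ⟨γ', δ'', v', hγ', hδ'', hg'⟩, h1, h2⟩ := hhN
      (fun p => (fun i => act (γ i) (p.1 i), δ' p.2.1, fun j => p.2.2 j + (v j : ℝ)))
      ⟨γ, δ', v, hγ, hδ', fun p => rfl⟩
    have hne : Nonempty W := ⟨crd.symm 0⟩
    obtain ⟨y₀⟩ := hne
    have hδe : δ'' = δ * δ' * δ⁻¹ := by
      have h3 := congrArg (fun q : X W r k => q.2.1)
        (congrFun h1 (fun _ => UpperHalfPlane.I, y₀, 0))
      simp only [Function.comp_apply] at h3
      rw [model_mid, hg'] at h3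
      have h4 : h^[N] (δ' y₀) = δ'' (h^[N] y₀) := by
        refine h3.trans ?_
        show δ'' (((model f h A τ)^[N] (fun _ => UpperHalfPlane.I, y₀, 0)).2.1) = _
        rw [model_mid]
      rw [hinN δ' hδ'] at h4
      have hm1 : δ * δ' * δ⁻¹ ∈ G := mul_mem (mul_mem hδ hδ') (inv_mem hδ)
      have h5 : (δ''⁻¹ * (δ * δ' * δ⁻¹)) (h^[N] y₀) = h^[N] y₀ := by
        rw [Equiv.Perm.mul_apply, h4]
        exact δ''.symm_apply_apply _
      have h6 := hN.deck.free _ (mul_mem (inv_mem hδ'') hm1) _ h5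
      exact (inv_mul_eq_one.1 h6)
    refine ⟨γ', v', hγ', fun i z => ?_, fun z y t => ?_, fun p => ?_⟩
    · have h3 := congrArg (fun q : X W r k => q.1 i) (congrFun h1 (fun _ => z, y₀, 0))
      simp only [Function.comp_apply] at h3
      rw [model_fst, hg'] at h3
      refine h3.trans ?_
      show act (γ' i) (((model f h A τ)^[N] (fun _ => z, y₀, 0)).1 i) = _
      rw [model_fst]
    · have h3 := congrArg (fun q : X W r k => q.2.2) (congrFun h1 (z, y, t))
      simp only [Function.comp_apply] at h3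
      rw [hmodel, hg'] at h3
      have h4 := hmodel (z, y, t)
      simp only at h3 h4
      rw [h3, h4]
    · have h3 := congrFun h2 p
      simp only [Function.comp_apply] at h3
      rw [h3, hg', hδe]
  have hτN' : Tor.IsTwist (A2.surf S) (τN : Tor.B r → (Fin k → ℝ)) := by
    refine ⟨hτNc, fun γ hγ δ' hδ' => ?_⟩
    obtain ⟨γ', v', hγ', h1, h2, h3⟩ := hrel γ δ' (fun _ => 0) hγ hδ'
    refine ⟨v', fun z y => ?_⟩
    have h4 := h2 z y 0
    have h5 : (fun j => (0 : Fin k → ℝ) j + (((fun _ => 0 : Fin k → ℤ) j : ℤ) : ℝ)) = 0 := by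
      funext j
      simp
    rw [h5, Matrix.mulVec_zero, zero_add, zero_add] at h4
    exact h4
  -- the new lift
  have hδi : δ⁻¹ ∈ G := inv_mem hδ
  have hcont : ∀ g ∈ G, Continuous g := fun g hg =>
    (Isometry.of_dist_eq (hN.deck.isom g hg)).continuous
  let gW : W ≃ₜ W :=
    { toEquiv := δ⁻¹
      continuous_toFun := hcont _ hδi
      continuous_invFun := hcont _ hδ }
  let g₀ : X W r k ≃ₜ X W r k :=
    (Homeomorph.refl _).prodCongr (gW.prodCongr (Homeomorph.refl _))
  have hg₀ : IsDeck (fun i => (S i).Γ) G g₀ := by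
    refine ⟨fun _ => 1, δ⁻¹, fun _ => 0, fun i => one_mem _, hδi, fun p => ?_⟩
    refine Prod.ext (funext fun i => (one_smul _ _).symm) (Prod.ext rfl (funext fun j => ?_))
    show p.2.2 j = p.2.2 j + ((0 : ℤ) : ℝ)
    simp
  have hT := A2.IsAnosovLift.deck_pow hF' (Nat.mul_pos hn hNpos) ((hdeck _).1 hg₀)
  have hpow : ∀ n : ℕ, ((F' ^ n : X W r k ≃ₜ X W r k) : X W r k → X W r k) = F^[n] := by
    intro n
    induction n with
    | zero => rfl
    | succ n ih =>
      funext p
      rw [pow_succ', Function.iterate_succ_apply', ← ih, ← hF'c]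
      rfl
  refine hmain r (hrd.imp id fun hd => ?_) S hSt (A ^ N) τN hτN' _ hT ?_
  · show 0 < Module.finrank ℝ (Fin d → ℝ)
    rw [Module.finrank_fintype_fun_eq_card, Fintype.card_fin]
    exact hd
  · intro g hg
    obtain ⟨γ, δ', v, hγ, hδ', hg'⟩ := (hdeck g).2 hg
    obtain ⟨γ', v', hγ', h1, h2, h3⟩ := hrel γ δ' v hγ hδ'
    refine ⟨fun p => (fun i => act (γ' i) (p.1 i), δ' p.2.1, fun j => p.2.2 j + (v' j : ℝ)),
      (hdeck _).1 ⟨γ', δ', v', hγ', hδ', fun p => rfl⟩, ?_, ?_⟩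
    · funext p
      rw [Function.comp_apply, Function.comp_apply, hg']
      refine Prod.ext ?_ (Prod.ext rfl ?_)
      · funext i
        exact hSc i (γ i) (hγ i) (γ' i) (hγ' i) (h1 i) (p.1 i)
      · exact h2 p.1 p.2.1 p.2.2
    · funext p
      have h4 : ⇑(F' ^ (n * N)) = (F^[n])^[N] := by
        rw [hpow, Function.iterate_mul]
      have h5 : ∀ q : X W r k, (g₀ * F' ^ (n * N) : X W r k ≃ₜ X W r k) q =
          (((F^[n])^[N] q).1, δ⁻¹ ((F^[n])^[N] q).2.1, ((F^[n])^[N] q).2.2) := by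
        intro q
        show g₀ ((F' ^ (n * N)) q) = _
        rw [h4]
        rfl
      rw [Function.comp_apply, Function.comp_apply, hg']
      refine (h5 _).trans ?_
      rw [h3 p]
      have h6 := h5 p
      refine Eq.trans ?_ (congrArg (fun q : X W r k => ((fun i => act (γ' i) (q.1 i), δ' q.2.1,
        fun j => q.2.2 j + (v' j : ℝ)) : X W r k)) h6.symm)
      refine Prod.ext rfl (Prod.ext ?_ rfl)
      show δ⁻¹ ((δ * δ' * δ⁻¹) ((F^[n])^[N] p).2.1) = δ' (δ⁻¹ ((F^[n])^[N] p).2.1)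
      rw [Equiv.Perm.mul_apply, Equiv.Perm.mul_apply]
      exact δ.symm_apply_apply _

end Pool.Agent.ANO5.Stmt
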