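import Pool.Agent.ANO5.Stmt.Defs
import Pool.Agent.ANO5.Typ.UnipOn
import Pool.Agent.ANO3.Stmt.Main

/-!
# ANO5: the surface factors of the final statement
-/

set_option autoImplicit false

open scoped UpperHalfPlane MatrixGroups
open Set Filter Topology

namespace Pool.Agent.ANO5.Stmt

open Pool.Agent.ANO2 (SurfaceMap)
open Pool.Agent.ANO2.Stmt (act IsSurfaceGroup IsHomeoLift)
open Pool.Agent.ANO3.Stmt (IsIsotopic IsNormalForm IsDualTree IsExpanding)
open Pool.Agent.ANO5.Typ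

variable {Γ : Subgroup SL(2, ℝ)} {g : ℍ → ℍ} {du ds : ℍ → ℍ → ℝ}

theorem tree_nonneg {d : ℍ → ℍ → ℝ} (h : IsDualTree Γ d) (a b : ℍ) : 0 ≤ d a b := by
  have h2 := h.triangle a b a
  rw [h.self, h.symm b a] at h2
  linarith

theorem tree_zero_trans {d : ℍ → ℍ → ℝ} (h : IsDualTree Γ d) {a b c : ℍ} (h1 : d a b = 0)
    (h2 : d b c = 0) : d a c = 0 := by
  have h3 := h.triangle a b c
  have h4 := tree_nonneg h a c
  linarith

/-- The stabilizer of the point of `v` in both trees. -/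
def stab (hu : IsDualTree Γ du) (hs : IsDualTree Γ ds) (v : ℍ) : Subgroup SL(2, ℝ) where
  carrier := stabilizer Γ du ds v
  mul_mem' := by
    rintro a b ⟨ha, ha1, ha2⟩ ⟨hb, hb1, hb2⟩
    refine ⟨mul_mem ha hb, ?_, ?_⟩
    · rw [ANO3.Stmt.act_mul]
      exact tree_zero_trans hu ha1 (by rw [hu.inv a ha]; exact hb1)
    · rw [ANO3.Stmt.act_mul]
      exact tree_zero_trans hs ha2 (by rw [hs.inv a ha]; exact hb2)
  one_mem' := by
    refine ⟨one_mem _, ?_, ?_⟩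
    · rw [show act 1 v = v from one_smul _ v]
      exact hu.self v
    · rw [show act 1 v = v from one_smul _ v]
      exact hs.self v
  inv_mem' := by
    rintro a ⟨ha, ha1, ha2⟩
    have e : act a (act a⁻¹ v) = v := smul_inv_smul a v
    refine ⟨inv_mem ha, ?_, ?_⟩
    · rw [← hu.inv a ha, e, hu.symm]
      exact ha1
    · rw [← hs.inv a ha, e, hs.symm]
      exact ha2

theorem expand_zero (hu : IsDualTree Γ du) (hs : IsDualTree Γ ds) (he : IsExpanding g du ds)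
    (a b : ℍ) : (du a b = 0 → du (g a) (g b) = 0) ∧ (ds a b = 0 → ds (g a) (g b) = 0) := by
  obtain ⟨l, L, hl, h⟩ := he
  obtain ⟨⟨h1, h2⟩, h3, h4⟩ := h a b
  constructor
  · intro h0
    rw [h0, mul_zero] at h2
    exact le_antisymm h2 (tree_nonneg hu _ _)
  · intro h0
    rw [h0] at h3
    have h5 := tree_nonneg hs (g a) (g b)
    nlinarith

theorem expand_iter_zero (hu : IsDualTree Γ du) (hs : IsDualTree Γ ds)
    (he : IsExpanding g du ds) (m : ℕ) (a b : ℍ) :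
    (du a b = 0 → du (g^[m] a) (g^[m] b) = 0) ∧ (ds a b = 0 → ds (g^[m] a) (g^[m] b) = 0) := by
  induction m with
  | zero => exact ⟨id, id⟩
  | succ m ih =>
    rw [Function.iterate_succ_apply', Function.iterate_succ_apply']
    have h1 := expand_zero hu hs he (g^[m] a) (g^[m] b)
    exact ⟨fun h0 => h1.1 (ih.1 h0), fun h0 => h1.2 (ih.2 h0)⟩

/-- The permutation `γ g^m`. -/
noncomputable def liftPerm (hg : IsHomeoLift Γ g) (m : ℕ) (γ : SL(2, ℝ)) : Equiv.Perm ℍ :=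
  (Equiv.ofBijective _ (hg.homeo.bijective.iterate m)).trans (actHom γ)

theorem liftPerm_apply (hg : IsHomeoLift Γ g) (m : ℕ) (γ : SL(2, ℝ)) (z : ℍ) :
    liftPerm hg m γ z = act γ (g^[m] z) := rfl

theorem liftPerm_conj (hu : IsDualTree Γ du) (hs : IsDualTree Γ ds) (hg : IsHomeoLift Γ g)
    (he : IsExpanding g du ds) {v : ℍ} {m : ℕ} {γ : SL(2, ℝ)} (hγ : γ ∈ Γ)
    (h1 : du v (act γ (g^[m] v)) = 0) (h2 : ds v (act γ (g^[m] v)) = 0) :
    ∀ p ∈ (stab hu hs v).map actHom, liftPerm hg m γ * p * (liftPerm hg m γ)⁻¹ ∈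
      (stab hu hs v).map actHom := by
  rintro _ ⟨δ, hδ, rfl⟩
  obtain ⟨hδΓ, hδ1, hδ2⟩ := id hδ
  obtain ⟨δ', hδ', e⟩ := (ANO3.Stmt.IsHomeoLift.iter hg m).normalizes δ hδΓ
  have e1 : ∀ z, act (γ * δ' * γ⁻¹) (act γ (g^[m] z)) = act γ (g^[m] (act δ z)) := by
    intro z
    rw [ANO3.Stmt.act_mul, ANO3.Stmt.act_mul, e]
    congr 1
    exact congrArg (act δ') (inv_smul_smul γ _)
  have hmem : γ * δ' * γ⁻¹ ∈ Γ := mul_mem (mul_mem hγ hδ') (inv_mem hγ)
  refine ⟨γ * δ' * γ⁻¹, ⟨hmem, ?_, ?_⟩, ?_⟩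
  · refine tree_zero_trans hu h1 (tree_zero_trans hu
      (b := act (γ * δ' * γ⁻¹) (act γ (g^[m] v))) ?_ ?_)
    · rw [e1, hu.inv γ hγ]
      exact (expand_iter_zero hu hs he m _ _).1 hδ1
    · rw [hu.inv _ hmem, hu.symm]
      exact h1
  · refine tree_zero_trans hs h2 (tree_zero_trans hs
      (b := act (γ * δ' * γ⁻¹) (act γ (g^[m] v))) ?_ ?_)
    · rw [e1, hs.inv γ hγ]
      exact (expand_iter_zero hu hs he m _ _).2 hδ2
    · rw [hs.inv _ hmem, hs.symm]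
      exact h2
  · refine Equiv.ext fun z => ?_
    obtain ⟨y, rfl⟩ := (liftPerm hg m γ).surjective z
    have h3 : (liftPerm hg m γ)⁻¹ (liftPerm hg m γ y) = y := Equiv.symm_apply_apply _ y
    show act (γ * δ' * γ⁻¹) (liftPerm hg m γ y) =
      liftPerm hg m γ (act δ ((liftPerm hg m γ)⁻¹ (liftPerm hg m γ y)))
    rw [h3]
    exact e1 y

private theorem pow_lift (hg : IsHomeoLift Γ g) {m : ℕ} {γ : SL(2, ℝ)} (hγ : γ ∈ Γ) (c : ℕ) :
    ∃ γ' ∈ Γ, ∀ z, (liftPerm hg m γ ^ c) z = act γ' (g^[m * c] z) := by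
  induction c with
  | zero => exact ⟨1, one_mem _, fun z => (one_smul _ z).symm⟩
  | succ c ih =>
    obtain ⟨γ', hγ', h⟩ := ih
    obtain ⟨γ'', hγ'', h'⟩ := (ANO3.Stmt.IsHomeoLift.iter hg m).normalizes γ' hγ'
    refine ⟨γ * γ'', mul_mem hγ hγ'', fun z => ?_⟩
    rw [pow_succ', Equiv.Perm.mul_apply, liftPerm_apply, h, h', ANO3.Stmt.act_mul, Nat.mul_succ,
      add_comm (m * c) m, Function.iterate_add_apply]

private theorem conj_pow {G : Type*} [Group G] {s : Subgroup G} {H : G}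
    (hH : ∀ p ∈ s, H * p * H⁻¹ ∈ s) (c : ℕ) : ∀ p ∈ s, H ^ c * p * (H ^ c)⁻¹ ∈ s := by
  induction c with
  | zero => intro p hp; simpa using hp
  | succ c ih =>
    intro p hp
    have e : H ^ (c + 1) * p * (H ^ (c + 1))⁻¹ = H * (H ^ c * p * (H ^ c)⁻¹) * H⁻¹ := by
      rw [pow_succ']
      group
    rw [e]
    exact hH _ (ih p hp)

theorem IsUnipotentOff.iter (hu : IsDualTree Γ du) (hs : IsDualTree Γ ds)
    (hg : IsHomeoLift Γ g) (he : IsExpanding g du ds) {U : Set ℍ}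
    (h : IsUnipotentOff Γ g U du ds) (c : ℕ) : IsUnipotentOff Γ g^[c] U du ds := by
  intro v hv
  obtain ⟨m, hm, γ, hγ, h1, h2, h3⟩ := h v hv
  have hc := liftPerm_conj hu hs hg he hγ h1 h2
  obtain ⟨n, hn⟩ := unip_of_unipOn (G := stab hu hs v) (H := liftPerm hg m γ) hc h3
  have h4 := hn.pow hc (conj_pow hc c) (one_mem _) (one_mul (liftPerm hg m γ ^ c)).symm
  have h5 := unipOn_of_unip h4
  obtain ⟨γ', hγ', h6⟩ := pow_lift hg (m := m) hγ c
  have e : ∀ z, act γ' ((g^[c])^[m] z) = (liftPerm hg m γ ^ c) z := fun z => by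
    rw [h6, ← Function.iterate_mul, mul_comm c m]
  have h7 : ∀ j : ℕ, du v ((liftPerm hg m γ ^ j) v) = 0 ∧ ds v ((liftPerm hg m γ ^ j) v) = 0 := by
    intro j
    induction j with
    | zero => exact ⟨hu.self v, hs.self v⟩
    | succ j ih =>
      have e2 : (liftPerm hg m γ ^ (j + 1)) v = act γ (g^[m] ((liftPerm hg m γ ^ j) v)) := by
        rw [pow_succ', Equiv.Perm.mul_apply, liftPerm_apply]
      rw [e2]
      have h8 := expand_iter_zero hu hs he m v ((liftPerm hg m γ ^ j) v)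
      refine ⟨tree_zero_trans hu h1 ?_, tree_zero_trans hs h2 ?_⟩
      · rw [hu.inv γ hγ]
        exact h8.1 ih.1
      · rw [hs.inv γ hγ]
        exact h8.2 ih.2
  refine ⟨m, hm, γ', hγ', ?_, ?_, ?_⟩
  · rw [e]
    exact (h7 c).1
  · rw [e]
    exact (h7 c).2
  · have e3 : (fun z => act γ' ((g^[c])^[m] z)) = ⇑(liftPerm hg m γ ^ c) := funext e
    rw [e3]
    exact h5

theorem nonempty_normal {S : SurfaceMap} {U : Set ℍ}
    (h : IsNormalForm S.Γ S.f U du ds) (hu : IsUnipotentOff S.Γ S.f U du ds) :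
    Nonempty (Normal S) := by
  obtain ⟨l, L, hl, h1⟩ := h.expanding
  exact ⟨{
    U := U
    l := l
    L := L
    du := du
    ds := ds
    isOpen := h.foliated.isOpen
    inv := h.foliated.inv
    inv_f := h.inv
    one_lt := hl
    dual_u := h.foliated.tree_u.toDual
    dual_s := h.foliated.tree_s.toDual
    scale_u := fun a b => (h1 a b).1
    scale_s := fun a b => (h1 a b).2
    chart := fun a ha => by
      obtain ⟨D, hD, h2⟩ := h.foliated.natural a ha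
      exact ⟨D, hD, h2.sub, h2.smooth.1, h2.smooth.2, h2.dist⟩
    emb := h.foliated.nhds
    sep := h.foliated.compl
    dense := fun a ha N hN => by
      obtain ⟨z, hz, hp⟩ := h.dense a ha N hN
      exact ⟨z, hz, ANO3.Stmt.IsPeriodicPoint.toPer.1 hp⟩
    finite := by
      obtain ⟨P, hP, h2⟩ := h.finite
      exact ⟨P, hP, fun z hz hp => h2 z hz (ANO3.Stmt.IsPeriodicPoint.toPer.2 hp)⟩
    nondeg := fun z m γ hm hγ hz => h.nondeg m hm γ hγ z hz
    vertex := fun hU => by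
      obtain ⟨v, hv, ⟨b, hb⟩, hs⟩ := h.vertex hU
      refine ⟨v, hv, ⟨b, fun ε hε => ?_⟩, hs⟩
      obtain ⟨z, hz, hp, h2, h3, h4, h5⟩ := hb ε hε
      exact ⟨z, hz, ANO3.Stmt.IsPeriodicPoint.toPer.1 hp, h2, h3, h4, h5⟩
    unip := fun v hv => by
      obtain ⟨m, hm, γ, hγ, h2, h3, h4⟩ := hu v hv
      exact ⟨m, γ, hm, hγ, h2, h3, h4⟩ }⟩

theorem exists_surface (hΓ : IsSurfaceGroup Γ) {f : ℍ → ℍ} (hf : HasNormalForm Γ f) :
    ∃ m : ℕ, 0 < m ∧ ∀ c : ℕ, 0 < c → ∃ S : SurfaceMap, S.Γ = Γ ∧ Nonempty (Normal S) ∧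
      ∀ γ ∈ Γ, ∀ γ' ∈ Γ, (∀ z, f^[m * c] (act γ z) = act γ' (f^[m * c] z)) →
        ∀ z, S.f (act γ z) = act γ' (S.f z) := by
  obtain ⟨-, m, hm, g, U, du, ds, hg, hfg, hN, hU⟩ := hf
  refine ⟨m, hm, fun c hc => ?_⟩
  have hgc := ANO3.Stmt.IsHomeoLift.iter hg c
  let S : SurfaceMap :=
    { Γ := Γ
      free := hΓ.free
      proper := hΓ.proper
      cocompact := hΓ.cocompact
      f := hgc.homeo.homeomorph g^[c]
      normalizes := hgc.normalizes
      normalizes' := hgc.normalizes' }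
  refine ⟨S, rfl, nonempty_normal (S := S) (hN.iter hg hc)
    (IsUnipotentOff.iter hN.foliated.tree_u hN.foliated.tree_s hg hN.expanding hU c),
    fun γ hγ γ' hγ' h z => ?_⟩
  obtain ⟨γ₁, hγ₁, h1, h2⟩ := hfg.iter c γ hγ
  rw [← Function.iterate_mul] at h1
  have h3 : ∀ y, act γ₁ y = act γ' y := fun y => by
    have h5 : act (γ'⁻¹ * γ₁) (f^[m * c] z) = f^[m * c] z := by
      change (γ'⁻¹ * γ₁) • f^[m * c] z = f^[m * c] z
      rw [mul_smul, inv_smul_eq_iff]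
      exact (h1 z).symm.trans (h z)
    have h6 := hΓ.free _ (Γ.mul_mem (Γ.inv_mem hγ') hγ₁) _ h5 y
    change (γ'⁻¹ * γ₁) • y = y at h6
    rw [mul_smul, inv_smul_eq_iff] at h6
    exact h6
  have h4 : ∀ y, S.f y = g^[c] y := fun _ => rfl
  rw [h4, h4, h2, h3]

end Pool.Agent.ANO5.Stmt
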